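import Pool.Agent.W714.HE.Main

/-!
# Einstein six-manifolds with sectional curvatures between zero and twice their mean

At a point of a Riemannian six-manifold where `Ric = 5 κ` times the metric (`κ > 0`, so `κ` is the mean of the
sectional curvatures) and `0 ≤ K ≤ 2 κ`, the Gauss-Bonnet-Chern integrand is at least `1 / 50` of its value for
constant curvature `κ`; mirrored, it is at most `- 1 / 50` of that value if `Ric = -5 κ` and `-2 κ ≤ K ≤ 0`.
So a closed six-manifold with Euler characteristic `χ ≤ 0` has no Einstein metric with `0 ≤ K` whose largest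
sectional curvature is at most twice the mean, one with `χ ≥ 0` has no non-flat Einstein metric with `K ≤ 0` and
the mirrored bound, and for all these metrics `κ ³ vol ≤ (80 π ³ / 3) |χ|`.

The algebraic inequality is a theorem of the starting library (`Pool/Agent/W714/HE/Main.lean`), of which the
starting file `MP_5a30bb_gt/EinsteinDimSix` uses the negative sign; the starting file
`MP_ebfab8_gt/OneSidedDimSix` has a one-sided bound, `K ≤ 1.42 κ`.
-/

set_option autoImplicit false

namespace Pool.Agent.Results.MP_ebfab8_gt.EinsteinTwoSided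

open Hopf6 MeasureTheory Pool.Agent.W714.HE

/-- **Einstein six-manifolds with curvatures between zero and twice their mean.**
(1) The pointwise bound for `Ric = 5 κ`, `0 ≤ K ≤ 2 κ`. (2) The mirrored bound.
(3), (4) The integrated bounds for a field of such tensors over a finite measure space, with constant `κ`. -/
theorem result :
    (∀ (V : Type) [NormedAddCommGroup V] [InnerProductSpace ℝ V]
      (e : OrthonormalBasis (Fin 6) ℝ V) (R : V → V → V → V → ℝ), AlgCurv R →
      ∀ κ : ℝ, 0 < κ → Einstein e R κ → Hopf6.SecIn R 0 (2 * κ) →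
        1 / 50 * roundGB κ ≤ Hopf6.gbc e R ∧ 0 < Hopf6.gbc e R) ∧
    (∀ (V : Type) [NormedAddCommGroup V] [InnerProductSpace ℝ V]
      (e : OrthonormalBasis (Fin 6) ℝ V) (R : V → V → V → V → ℝ), AlgCurv R →
      ∀ κ : ℝ, 0 < κ → Einstein e R (-κ) → Hopf6.SecIn R (-(2 * κ)) 0 →
        Hopf6.gbc e R ≤ -(1 / 50 * roundGB κ) ∧ Hopf6.gbc e R < 0) ∧
    (∀ (M : Type) [MeasurableSpace M] (μ : Measure M) [IsFiniteMeasure μ] (K : CurvField M) (κ : ℝ),
      μ ≠ 0 → 0 < κ → Integrable K.gbc μ →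
      (∀ p, Einstein (K.e p) (K.R p) κ ∧ K.SecIn p 0 (2 * κ)) →
        κ ^ 3 * μ.real Set.univ ≤ 80 * Real.pi ^ 3 / 3 * ∫ p, K.gbc p ∂μ ∧ 0 < ∫ p, K.gbc p ∂μ) ∧
    (∀ (M : Type) [MeasurableSpace M] (μ : Measure M) [IsFiniteMeasure μ] (K : CurvField M) (κ : ℝ),
      μ ≠ 0 → 0 < κ → Integrable K.gbc μ →
      (∀ p, Einstein (K.e p) (K.R p) (-κ) ∧ K.SecIn p (-(2 * κ)) 0) →
        κ ^ 3 * μ.real Set.univ ≤ 80 * Real.pi ^ 3 / 3 * (-∫ p, K.gbc p ∂μ) ∧ ∫ p, K.gbc p ∂μ < 0) := by
  have hpos : ∀ (V : Type) [NormedAddCommGroup V] [InnerProductSpace ℝ V]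
      (e : OrthonormalBasis (Fin 6) ℝ V) (R : V → V → V → V → ℝ), AlgCurv R →
      ∀ κ : ℝ, 0 < κ → Einstein e R κ → Hopf6.SecIn R 0 (2 * κ) →
        1 / 50 * roundGB κ ≤ Hopf6.gbc e R ∧ 0 < Hopf6.gbc e R := by
    intro V _ _ e R hR κ hκ hE h
    have h1 := ein_pos e hR hκ hE h
    have hpi := Real.pi_pos
    have h2 : 1 / 50 * roundGB κ ≤ Hopf6.gbc e R := by
      rw [gbc_eq]
      calc 1 / 50 * roundGB κ = 1 / ((8 * Real.pi) ^ 3 * 6) * (5760 / 50 * κ ^ 3) := by
            unfold roundGB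
            field_simp
            norm_num
        _ ≤ _ := mul_le_mul_of_nonneg_left h1 (by positivity)
    refine ⟨h2, lt_of_lt_of_le ?_ h2⟩
    have := roundGB_pos hκ
    linarith
  have hneg : ∀ (V : Type) [NormedAddCommGroup V] [InnerProductSpace ℝ V]
      (e : OrthonormalBasis (Fin 6) ℝ V) (R : V → V → V → V → ℝ), AlgCurv R →
      ∀ κ : ℝ, 0 < κ → Einstein e R (-κ) → Hopf6.SecIn R (-(2 * κ)) 0 →
        Hopf6.gbc e R ≤ -(1 / 50 * roundGB κ) ∧ Hopf6.gbc e R < 0 := by
    intro V _ _ e R hR κ hκ hE h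
    have h1 := ein_point_neg e hR hκ hE h
    refine ⟨h1, lt_of_le_of_lt h1 ?_⟩
    have := roundGB_pos hκ
    linarith
  have hval : ∀ κ x : ℝ, 1 / 50 * roundGB κ * x * (80 * Real.pi ^ 3 / 3) = κ ^ 3 * x := by
    intro κ x
    have hpi := Real.pi_pos
    unfold roundGB
    field_simp
    ring
  have hmass : ∀ (M : Type) [MeasurableSpace M] (μ : Measure M) [IsFiniteMeasure μ], μ ≠ 0 →
      0 < μ.real Set.univ := by
    intro M _ μ _ hμ
    exact ENNReal.toReal_pos (Measure.measure_univ_pos.2 hμ).ne' (measure_ne_top μ _)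
  refine ⟨hpos, hneg, ?_, ?_⟩
  · intro M _ μ _ K κ hμ hκ hint h
    have h1 : 1 / 50 * roundGB κ * μ.real Set.univ ≤ ∫ p, K.gbc p ∂μ := by
      have h2 : ∫ _p : M, 1 / 50 * roundGB κ ∂μ ≤ ∫ p, K.gbc p ∂μ :=
        integral_mono (integrable_const _) hint fun p =>
          (hpos (K.V p) (K.e p) (K.R p) (K.curv p) κ hκ (h p).1 (h p).2).1
      rw [integral_const, smul_eq_mul] at h2
      linarith
    have h3 := roundGB_pos hκ
    have h4 := hmass M μ hμ
    have hc : (0 : ℝ) ≤ 80 * Real.pi ^ 3 / 3 := by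
      have := Real.pi_pos
      positivity
    refine ⟨?_, lt_of_lt_of_le (by positivity) h1⟩
    have h5 := mul_le_mul_of_nonneg_right h1 hc
    rw [hval] at h5
    linarith
  · intro M _ μ _ K κ hμ hκ hint h
    have h1 : 1 / 50 * roundGB κ * μ.real Set.univ ≤ -∫ p, K.gbc p ∂μ := by
      have h2 : ∫ p, K.gbc p ∂μ ≤ ∫ _p : M, -(1 / 50 * roundGB κ) ∂μ :=
        integral_mono hint (integrable_const _) fun p =>
          (hneg (K.V p) (K.e p) (K.R p) (K.curv p) κ hκ (h p).1 (h p).2).1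
      rw [integral_const, smul_eq_mul] at h2
      linarith
    have h3 := roundGB_pos hκ
    have h4 := hmass M μ hμ
    have hc : (0 : ℝ) ≤ 80 * Real.pi ^ 3 / 3 := by
      have := Real.pi_pos
      positivity
    have h6 : 0 < 1 / 50 * roundGB κ * μ.real Set.univ := by positivity
    refine ⟨?_, by linarith⟩
    have h5 := mul_le_mul_of_nonneg_right h1 hc
    rw [hval] at h5
    linarith

end Pool.Agent.Results.MP_ebfab8_gt.EinsteinTwoSided
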