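import Pool.Agent.W666.GB.Main

/-!
# Einstein metrics of negative scalar curvature which are close to constant curvature in mean square

Let `n = 2 m`, `κ > 0`, let `R` be an algebraic curvature tensor in dimension `n` with Ricci tensor
`- (n - 1) κ` times the metric, and let `G` be the value of the Gauss-Bonnet-Chern integrand for
constant curvature `κ`. If the Hilbert-Schmidt norm of the Weyl part `R - R_κ` (`R_κ` of constant
curvature `-κ`) is at most `10⁻⁶ κ n`, then `|(-1) ^ m GB(R) - G| ≤ G / 5`.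

The norm of `R_κ` is `κ √(2 n (n - 1))`, so the bound on the Weyl part is a fixed proportion, independent
of the dimension, of the norm of the whole tensor. Nothing is assumed on the sign of the sectional
curvatures, and the curvature operator may have eigenvalues of both signs.

Integrated: for a closed manifold with an Einstein metric with `Ric = - (n - 1) κ g` satisfying this
bound everywhere, `(-1) ^ m χ` is positive and lies between `4 / 5` and `6 / 5` times the volume times
`G`; the scale invariant numbers `κ ^ m vol` of two such Einstein metrics on the same manifold have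
ratio at most `3 / 2`. A closed manifold with `(-1) ^ m χ ≤ 0` has no such metric.

The analytic part is the library `Pool/Agent/W666/GB`.
-/

set_option autoImplicit false

namespace Pool.Agent.Results.MP_ebfab8_gt.NearlyConstantEinstein

open MeasureTheory
open Pool.Agent.W666.GB

/-- `Ric(R) = - (n - 1) κ` times the metric, `n = 2 m`. -/
def NegEinstein {V : Type} [NormedAddCommGroup V] [InnerProductSpace ℝ V] {m : ℕ}
    (e : OrthonormalBasis (Fin m × Bool) ℝ V) (R : V → V → V → V → ℝ) (κ : ℝ) : Prop :=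
  ∀ y w : V, ∑ i, R (e i) y (e i) w = -((2 * m - 1) * κ * inner ℝ y w)

/-- The Hilbert-Schmidt norm of the difference of `R` and of the tensor of constant curvature `-κ`
(the Weyl tensor of `R`, if `Ric(R) = - (n - 1) κ`) is at most `10⁻⁶ κ n`, `n = 2 m`. -/
def SmallWeyl {V : Type} [NormedAddCommGroup V] [InnerProductSpace ℝ V] {m : ℕ}
    (e : OrthonormalBasis (Fin m × Bool) ℝ V) (R : V → V → V → V → ℝ) (κ : ℝ) : Prop :=
  devR e R κ ≤ (1 / 10 ^ 6 * κ * (2 * m)) ^ 2

section

variable {V : Type} [NormedAddCommGroup V] [InnerProductSpace ℝ V] {m : ℕ}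
  {e : OrthonormalBasis (Fin m × Bool) ℝ V} {R : V → V → V → V → ℝ} {κ : ℝ}

theorem ric_basis (h : NegEinstein e R κ) (j l : Fin m × Bool) :
    ∑ i, R (e i) (e j) (e i) (e l) = -((2 * m - 1) * κ * (if j = l then 1 else 0)) := by
  rw [h (e j) (e l), orthonormal_iff_ite.1 e.orthonormal j l]

theorem devRic_zero (h : NegEinstein e R κ) : devRic e R κ = 0 := by
  unfold devRic
  refine Finset.sum_eq_zero fun j _ => Finset.sum_eq_zero fun l _ => ?_
  rw [ric_basis h j l]
  ring

theorem scal_eq (h : NegEinstein e R κ) : scal e R = -(κ * (2 * m * (2 * m - 1))) := by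
  unfold scal
  rw [Finset.sum_comm]
  have h1 : ∀ j : Fin m × Bool, ∑ i, R (e i) (e j) (e i) (e j) = -((2 * m - 1) * κ) := by
    intro j
    rw [ric_basis h j j, if_pos rfl, mul_one]
  rw [Finset.sum_congr rfl fun j _ => h1 j, Finset.sum_const, Finset.card_univ, Fintype.card_prod,
    Fintype.card_fin, Fintype.card_bool, nsmul_eq_mul]
  push_cast
  ring

theorem near_of (h : NegEinstein e R κ) (hw : SmallWeyl e R κ) : Near e R κ := by
  refine ⟨scal_eq h, Or.inl ⟨hw, ?_⟩⟩
  rw [devRic_zero h]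
  positivity

end

/-- **Einstein tensors of negative scalar curvature with Weyl tensor small in mean square.** -/
theorem result :
    -- at a point
    (∀ (m : ℕ) (V : Type) [NormedAddCommGroup V] [InnerProductSpace ℝ V]
      (e : OrthonormalBasis (Fin m × Bool) ℝ V) (R : V → V → V → V → ℝ) (κ : ℝ),
      AlgCurv R → 0 < κ → NegEinstein e R κ → SmallWeyl e R κ →
      |(-1) ^ m * gbc e R - roundGB m κ| ≤ 1 / 5 * roundGB m κ ∧ 0 < (-1) ^ m * gbc e R) ∧
    -- the integral over a space of finite volume (for a closed manifold: the Euler characteristic)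
    (∀ (m : ℕ) (M : Type) [MeasurableSpace M] (μ : Measure M) (K : CurvField m M) (κ : ℝ),
      IsFiniteMeasure μ → Integrable K.gb μ → 0 < κ →
      (∀ p, NegEinstein (K.e p) (K.R p) κ ∧ SmallWeyl (K.e p) (K.R p) κ) →
        (μ ≠ 0 → 0 < (-1) ^ m * ∫ p, K.gb p ∂μ) ∧
        4 / 5 * (roundGB m κ * μ.real Set.univ) ≤ (-1) ^ m * ∫ p, K.gb p ∂μ ∧
        (-1) ^ m * ∫ p, K.gb p ∂μ ≤ 6 / 5 * (roundGB m κ * μ.real Set.univ)) ∧
    -- two such metrics with the same integral (for example on the same closed manifold)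
    (∀ (m : ℕ) (M : Type) [MeasurableSpace M] (μ ν : Measure M) (K L : CurvField m M) (κ κ' : ℝ),
      IsFiniteMeasure μ → IsFiniteMeasure ν → Integrable K.gb μ → Integrable L.gb ν →
      0 < κ → 0 < κ' →
      (∀ p, NegEinstein (K.e p) (K.R p) κ ∧ SmallWeyl (K.e p) (K.R p) κ) →
      (∀ p, NegEinstein (L.e p) (L.R p) κ' ∧ SmallWeyl (L.e p) (L.R p) κ') →
      ∫ p, K.gb p ∂μ = ∫ p, L.gb p ∂ν →
        κ ^ m * μ.real Set.univ ≤ 3 / 2 * (κ' ^ m * ν.real Set.univ)) := by
  have hpt : ∀ (m : ℕ) (V : Type) [NormedAddCommGroup V] [InnerProductSpace ℝ V]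
      (e : OrthonormalBasis (Fin m × Bool) ℝ V) (R : V → V → V → V → ℝ) (κ : ℝ),
      AlgCurv R → 0 < κ → NegEinstein e R κ → SmallWeyl e R κ →
      |(-1) ^ m * gbc e R - roundGB m κ| ≤ 1 / 5 * roundGB m κ ∧ 0 < (-1) ^ m * gbc e R := by
    intro m V _ _ e R κ hR hκ hE hw
    exact ⟨near_close e hR hκ (near_of hE hw), near_pos e hR hκ (near_of hE hw)⟩
  have hint : ∀ (m : ℕ) (M : Type) [MeasurableSpace M] (μ : Measure M) (K : CurvField m M) (κ : ℝ),
      IsFiniteMeasure μ → Integrable K.gb μ → 0 < κ →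
      (∀ p, NegEinstein (K.e p) (K.R p) κ ∧ SmallWeyl (K.e p) (K.R p) κ) →
        (μ ≠ 0 → 0 < (-1) ^ m * ∫ p, K.gb p ∂μ) ∧
        4 / 5 * (roundGB m κ * μ.real Set.univ) ≤ (-1) ^ m * ∫ p, K.gb p ∂μ ∧
        (-1) ^ m * ∫ p, K.gb p ∂μ ≤ 6 / 5 * (roundGB m κ * μ.real Set.univ) := by
    intro m M _ μ K κ hfin hi hκ h
    have hi' : Integrable (fun p => (-1) ^ m * K.gb p) μ := hi.const_mul _
    have heq : ∫ p, (-1) ^ m * K.gb p ∂μ = (-1) ^ m * ∫ p, K.gb p ∂μ := integral_const_mul _ _
    have hb : ∀ p, 4 / 5 * roundGB m κ ≤ (-1) ^ m * K.gb p ∧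
        (-1) ^ m * K.gb p ≤ 6 / 5 * roundGB m κ := by
      intro p
      have h1 := abs_le.1 (hpt m (K.V p) (K.e p) (K.R p) κ (K.curv p) hκ (h p).1 (h p).2).1
      have h2 : K.gb p = gbc (K.e p) (K.R p) := rfl
      rw [h2]
      constructor <;> linarith [h1.1, h1.2]
    have hc : ∀ c : ℝ, ∫ _ : M, c ∂μ = μ.real Set.univ * c := by
      intro c
      rw [integral_const, smul_eq_mul]
    have hlow : 4 / 5 * (roundGB m κ * μ.real Set.univ) ≤ (-1) ^ m * ∫ p, K.gb p ∂μ := by
      rw [← heq]
      have h1 := integral_mono (integrable_const (4 / 5 * roundGB m κ)) hi' fun p => (hb p).1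
      rw [hc] at h1
      linarith
    have hup : (-1) ^ m * ∫ p, K.gb p ∂μ ≤ 6 / 5 * (roundGB m κ * μ.real Set.univ) := by
      rw [← heq]
      have h1 := integral_mono hi' (integrable_const (6 / 5 * roundGB m κ)) fun p => (hb p).2
      rw [hc] at h1
      linarith
    refine ⟨fun hμ => ?_, hlow, hup⟩
    have hpos : 0 < μ.real Set.univ := by
      rw [Measure.real, ENNReal.toReal_pos_iff]
      exact ⟨(Measure.measure_univ_ne_zero.2 hμ).bot_lt, measure_lt_top μ _⟩
    have hr := roundGB_pos (m := m) hκ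
    have : 0 < 4 / 5 * (roundGB m κ * μ.real Set.univ) := by positivity
    linarith
  refine ⟨hpt, hint, ?_⟩
  intro m M _ μ ν K L κ κ' hμ hν hi hj hκ hκ' hK hL heq
  obtain ⟨-, h1, -⟩ := hint m M μ K κ hμ hi hκ hK
  obtain ⟨-, -, h2⟩ := hint m M ν L κ' hν hj hκ' hL
  rw [heq] at h1
  have hC : (0 : ℝ) < (2 * m).factorial / ((4 * Real.pi) ^ m * m.factorial) := by positivity
  have h3 : (2 * m).factorial / ((4 * Real.pi) ^ m * m.factorial) *
        (4 / 5 * (κ ^ m * μ.real Set.univ)) ≤
      (2 * m).factorial / ((4 * Real.pi) ^ m * m.factorial) *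
        (6 / 5 * (κ' ^ m * ν.real Set.univ)) := by
    have h5 := h1.trans h2
    simp only [roundGB] at h5
    linarith
  have h4 := le_of_mul_le_mul_left h3 hC
  linarith

end Pool.Agent.Results.MP_ebfab8_gt.NearlyConstantEinstein
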